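import Mathlib

/-!
# A self-similar polygonal tiling that is not obtained by the generating-pair method

The plane is tiled by squares of side 1, 2 and 3, with period 5 in both directions: the square
block `[0,5]²` consists of `[0,3]²`, `[3,5]²` and twelve unit squares.  The map `z ↦ 5 z` sends a
tile with integer corners to a union of `5 × 5` blocks, hence to a union of tiles.  The ratios of
the tile sizes are `2` and `3`, which are not integer powers of one number `s`; but the sizes of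
the tiles of `T(p, F, θ)` are all of the form `c * s ^ n`, `n` an integer.
-/

namespace Pool.Agent.Results.MP_4b3b27_co.SquaresOneTwoThree

open Complex Set

/-! ## Definitions (the plane is `ℂ` with its Euclidean metric) -/

/-- `p` is a polygon: there are `n ≥ 3` distinct vertices in cyclic order such that two different
sides meet only in common vertices, and `p` is compact, the closure of its interior, and its
boundary is the union of the sides. -/
def IsPolygon (p : Set ℂ) : Prop :=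
  ∃ (n : ℕ) (v : ZMod n → ℂ), 3 ≤ n ∧ Function.Injective v ∧
    (∀ i j : ZMod n, i ≠ j →
      segment ℝ (v i) (v (i + 1)) ∩ segment ℝ (v j) (v (j + 1)) ⊆
        {v i, v (i + 1)} ∩ {v j, v (j + 1)}) ∧
    IsCompact p ∧ (interior p).Nonempty ∧ closure (interior p) = p ∧
    frontier p = ⋃ i, segment ℝ (v i) (v (i + 1))

/-- `f` is a similitude of scaling ratio `r`. -/
def IsSimilitude (r : ℝ) (f : ℂ ≃ ℂ) : Prop :=
  0 < r ∧ ∀ x y, dist (f x) (f y) = r * dist x y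

/-- Two sets are similar. -/
def Similar (t t' : Set ℂ) : Prop := ∃ (r : ℝ) (f : ℂ ≃ ℂ), IsSimilitude r f ∧ f '' t = t'

/-- Two sets are congruent. -/
def Congruent (t t' : Set ℂ) : Prop := ∃ f : ℂ ≃ ℂ, IsSimilitude 1 f ∧ f '' t = t'

/-- A tiling: a set of compact sets whose union is the plane, any two of which meet only in
boundary points. -/
def IsTiling (T : Set (Set ℂ)) : Prop :=
  (∀ t ∈ T, IsCompact t) ∧ ⋃₀ T = univ ∧
    ∀ t ∈ T, ∀ t' ∈ T, t ≠ t' → t ∩ t' ⊆ frontier t ∩ frontier t'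

/-- Finite order: there are finitely many tiles up to congruence. -/
def FiniteOrder (T : Set (Set ℂ)) : Prop :=
  ∃ P : Set (Set ℂ), P.Finite ∧ ∀ t ∈ T, ∃ t' ∈ P, Congruent t t'

/-- A patch of `T`: a subset of `T` whose union is a topological disk. -/
def IsPatch (T U : Set (Set ℂ)) : Prop :=
  U ⊆ T ∧ Nonempty ((⋃₀ U : Set ℂ) ≃ₜ Metric.closedBall (0 : ℂ) 1)

/-- `T` is quasiperiodic: for every patch `U` there is `R > 0` such that every disk of radius `R`
contains a patch congruent to `U`. -/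
def Quasiperiodic (T : Set (Set ℂ)) : Prop :=
  ∀ U, IsPatch T U → ∃ R : ℝ, 0 < R ∧ ∀ c : ℂ, ∃ V, IsPatch T V ∧
    ⋃₀ V ⊆ Metric.closedBall c R ∧
    ∃ f : ℂ ≃ ℂ, IsSimilitude 1 f ∧ V = (fun t => f '' t) '' U

/-- `T` is self-similar: a similitude of ratio larger than one sends every tile to a union of
tiles. -/
def SelfSimilar (T : Set (Set ℂ)) : Prop :=
  ∃ (r : ℝ) (f : ℂ ≃ ℂ), 1 < r ∧ IsSimilitude r f ∧ ∀ t ∈ T, ∃ S ⊆ T, f '' t = ⋃₀ S

/-- A self-similar polygonal tiling. -/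
structure IsSelfSimilarPolygonalTiling (T : Set (Set ℂ)) : Prop where
  tiling : IsTiling T
  finiteOrder : FiniteOrder T
  quasiperiodic : Quasiperiodic T
  selfSimilar : SelfSimilar T
  polygons : ∀ t ∈ T, IsPolygon t
  similar : ∀ t ∈ T, ∀ t' ∈ T, Similar t t'

/-- `(p, F)` is a generating pair, with ratios `r n = s ^ a n`. -/
structure IsGeneratingPair (p : Set ℂ) {N : ℕ} (F : Fin N → ℂ ≃ ℂ) (s : ℝ) (a : Fin N → ℕ) :
    Prop where
  polygon : IsPolygon p
  two_le : 2 ≤ N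
  s_pos : 0 < s
  s_lt_one : s < 1
  a_pos : ∀ n, 1 ≤ a n
  gcd_eq : Finset.univ.gcd a = 1
  similitude : ∀ n, IsSimilitude (s ^ a n) (F n)
  union : p = ⋃ n, F n '' p
  meet : ∀ m n, m ≠ n → F m '' p ∩ F n '' p ⊆ frontier (F m '' p) ∩ frontier (F n '' p)

/-- `f_σ = f_{σ₁} ∘ ⋯ ∘ f_{σ_k}`. -/
def comp {N : ℕ} (F : Fin N → ℂ ≃ ℂ) : List (Fin N) → ℂ ≃ ℂ
  | [] => Equiv.refl ℂ
  | i :: σ => (comp F σ).trans (F i)

/-- `f_{-σ} = f_{σ₁}⁻¹ ∘ ⋯ ∘ f_{σ_k}⁻¹`. -/
def compInv {N : ℕ} (F : Fin N → ℂ ≃ ℂ) : List (Fin N) → ℂ ≃ ℂ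
  | [] => Equiv.refl ℂ
  | i :: σ => (compInv F σ).trans (F i).symm

/-- `e(σ)`, the sum of all `a_{σ_i}`. -/
def e {N : ℕ} (a : Fin N → ℕ) (σ : List (Fin N)) : ℕ := (σ.map a).sum

/-- `e⁻(σ)`, the sum of all `a_{σ_i}` except the last. -/
def eMinus {N : ℕ} (a : Fin N → ℕ) (σ : List (Fin N)) : ℕ := (σ.dropLast.map a).sum

/-- The prefix `θ|k` of length `k` of an infinite string. -/
def pre {N : ℕ} (θ : ℕ → Fin N) (k : ℕ) : List (Fin N) := (List.range k).map θ

/-- `T(θ, k)`. -/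
def level (p : Set ℂ) {N : ℕ} (F : Fin N → ℂ ≃ ℂ) (a : Fin N → ℕ) (θ : ℕ → Fin N) (k : ℕ) :
    Set (Set ℂ) :=
  {t | ∃ σ : List (Fin N), e a (pre θ k) ≤ e a σ ∧ eMinus a σ < e a (pre θ k) ∧
    t = compInv F (pre θ k) '' (comp F σ '' p)}

/-- `T(p, F, θ)`. -/
def genTiling (p : Set ℂ) {N : ℕ} (F : Fin N → ℂ ≃ ℂ) (a : Fin N → ℕ) (θ : ℕ → Fin N) :
    Set (Set ℂ) :=
  {t | ∃ k, 1 ≤ k ∧ t ∈ level p F a θ k}

/-! ## The tiling -/

/-- The square with lower left corner `(a, b)` and side `l`. -/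
def sq (a b l : ℤ) : Set ℂ := Icc (a : ℝ) (a + l) ×ℂ Icc (b : ℝ) (b + l)

/-- Which squares are tiles. -/
def Rel (a b l : ℤ) : Prop :=
  (l = 3 ∧ a % 5 = 0 ∧ b % 5 = 0) ∨ (l = 2 ∧ a % 5 = 3 ∧ b % 5 = 3) ∨
    (l = 1 ∧ ((a % 5 < 3 ∧ 3 ≤ b % 5) ∨ (3 ≤ a % 5 ∧ b % 5 < 3)))

/-- The tiling by squares of side 1, 2, 3. -/
def T0 : Set (Set ℂ) := {t | ∃ a b l : ℤ, Rel a b l ∧ t = sq a b l}

lemma mem_sq {a b l : ℤ} {z : ℂ} :
    z ∈ sq a b l ↔ ((a : ℝ) ≤ z.re ∧ z.re ≤ a + l) ∧ ((b : ℝ) ≤ z.im ∧ z.im ≤ b + l) := by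
  simp [sq, mem_reProdIm]

lemma Rel.pos {a b l : ℤ} (h : Rel a b l) : 1 ≤ l := by
  unfold Rel at h; omega

lemma interior_sq {a b l : ℤ} :
    interior (sq a b l) = Ioo (a : ℝ) (a + l) ×ℂ Ioo (b : ℝ) (b + l) := by
  rw [sq, Complex.interior_reProdIm, interior_Icc, interior_Icc]

lemma mem_interior_sq {a b l : ℤ} {z : ℂ} :
    z ∈ interior (sq a b l) ↔
      ((a : ℝ) < z.re ∧ z.re < a + l) ∧ ((b : ℝ) < z.im ∧ z.im < b + l) := by
  rw [interior_sq]
  simp [mem_reProdIm]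

lemma closure_interior_sq {a b l : ℤ} (hl : 1 ≤ l) : closure (interior (sq a b l)) = sq a b l := by
  have hl' : (1 : ℝ) ≤ l := by exact_mod_cast hl
  rw [interior_sq, Complex.closure_reProdIm, closure_Ioo (by linarith), closure_Ioo (by linarith)]
  rfl

lemma isClosed_sq {a b l : ℤ} : IsClosed (sq a b l) := isClosed_Icc.reProdIm isClosed_Icc

lemma isCompact_sq {a b l : ℤ} : IsCompact (sq a b l) := isCompact_Icc.reProdIm isCompact_Icc

/-- A cell determines the tile. -/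
lemma rel_unique {a b l a' b' l' A B : ℤ} (h : Rel a b l) (h' : Rel a' b' l')
    (h1 : a ≤ A) (h2 : A < a + l) (h3 : b ≤ B) (h4 : B < b + l)
    (h1' : a' ≤ A) (h2' : A < a' + l') (h3' : b' ≤ B) (h4' : B < b' + l') :
    a = a' ∧ b = b' ∧ l = l' := by
  unfold Rel at h h'
  rcases h with ⟨rfl, _, _⟩ | ⟨rfl, _, _⟩ | ⟨rfl, _⟩ <;>
    rcases h' with ⟨rfl, _, _⟩ | ⟨rfl, _, _⟩ | ⟨rfl, _⟩ <;> omega

lemma interior_disjoint {a b l a' b' l' : ℤ} (h : Rel a b l) (h' : Rel a' b' l') {z : ℂ}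
    (hz : z ∈ interior (sq a b l)) (hz' : z ∈ sq a' b' l') : a = a' ∧ b = b' ∧ l = l' := by
  have h1 : z ∈ closure (interior (sq a' b' l')) := by rwa [closure_interior_sq h'.pos]
  obtain ⟨w, hw, hw'⟩ := mem_closure_iff.1 h1 _ isOpen_interior hz
  rw [mem_interior_sq] at hw hw'
  obtain ⟨⟨w1, w2⟩, w3, w4⟩ := hw
  obtain ⟨⟨w1', w2'⟩, w3', w4'⟩ := hw'
  apply rel_unique (A := ⌊w.re⌋) (B := ⌊w.im⌋) h h'
  · exact Int.le_floor.2 w1.le
  · exact Int.floor_lt.2 (by push_cast; exact w2)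
  · exact Int.le_floor.2 w3.le
  · exact Int.floor_lt.2 (by push_cast; exact w4)
  · exact Int.le_floor.2 w1'.le
  · exact Int.floor_lt.2 (by push_cast; exact w2')
  · exact Int.le_floor.2 w3'.le
  · exact Int.floor_lt.2 (by push_cast; exact w4')

/-- a real number in `[a, a+3]` or `[a, a+2]` is in a unit interval with integer end points -/
lemma exists_unit {a m : ℤ} (hm : 1 ≤ m) {x : ℝ} (h1 : (a : ℝ) ≤ x) (h2 : x ≤ a + m) :
    ∃ c : ℤ, a ≤ c ∧ c + 1 ≤ a + m ∧ (c : ℝ) ≤ x ∧ x ≤ c + 1 := by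
  by_cases h : ⌊x⌋ + 1 ≤ a + m
  · exact ⟨⌊x⌋, Int.le_floor.2 h1, h, Int.floor_le x, (Int.lt_floor_add_one x).le⟩
  · push Not at h
    refine ⟨a + m - 1, by omega, by omega, ?_, ?_⟩
    · have h3 : a + m - 1 ≤ ⌊x⌋ := by omega
      exact le_trans (by exact_mod_cast h3) (Int.floor_le x)
    · push_cast
      linarith

/-- Every point of the block with corner `(5A, 5B)` is in a tile contained in the block. -/
lemma block (A B : ℤ) {z : ℂ} (hz : z ∈ sq (5 * A) (5 * B) 5) :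
    ∃ a b l : ℤ, Rel a b l ∧ z ∈ sq a b l ∧ 5 * A ≤ a ∧ a + l ≤ 5 * A + 5 ∧ 5 * B ≤ b ∧
      b + l ≤ 5 * B + 5 := by
  rw [mem_sq] at hz
  push_cast at hz
  obtain ⟨⟨z1, z2⟩, z3, z4⟩ := hz
  by_cases hx : z.re ≤ 5 * A + 3 <;> by_cases hy : z.im ≤ 5 * B + 3
  · refine ⟨5 * A, 5 * B, 3, Or.inl ⟨rfl, by omega, by omega⟩, ?_, by omega, by omega, by omega,
      by omega⟩
    rw [mem_sq]
    push_cast
    exact ⟨⟨z1, hx⟩, z3, hy⟩
  · push Not at hy
    obtain ⟨c, c1, c2, c3, c4⟩ := exists_unit (a := 5 * A) (m := 3) (by norm_num) (x := z.re)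
      (by push_cast; exact z1) (by push_cast; exact hx)
    obtain ⟨d, d1, d2, d3, d4⟩ := exists_unit (a := 5 * B + 3) (m := 2) (by norm_num) (x := z.im)
      (by push_cast; exact hy.le) (by push_cast; linarith)
    refine ⟨c, d, 1, Or.inr (Or.inr ⟨rfl, Or.inl ⟨by omega, by omega⟩⟩), ?_, by omega, by omega,
      by omega, by omega⟩
    rw [mem_sq]
    push_cast
    exact ⟨⟨c3, c4⟩, d3, d4⟩
  · push Not at hx
    obtain ⟨c, c1, c2, c3, c4⟩ := exists_unit (a := 5 * A + 3) (m := 2) (by norm_num) (x := z.re)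
      (by push_cast; exact hx.le) (by push_cast; linarith)
    obtain ⟨d, d1, d2, d3, d4⟩ := exists_unit (a := 5 * B) (m := 3) (by norm_num) (x := z.im)
      (by push_cast; exact z3) (by push_cast; exact hy)
    refine ⟨c, d, 1, Or.inr (Or.inr ⟨rfl, Or.inr ⟨by omega, by omega⟩⟩), ?_, by omega, by omega,
      by omega, by omega⟩
    rw [mem_sq]
    push_cast
    exact ⟨⟨c3, c4⟩, d3, d4⟩
  · push Not at hx hy
    refine ⟨5 * A + 3, 5 * B + 3, 2, Or.inr (Or.inl ⟨rfl, by omega, by omega⟩), ?_, by omega,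
      by omega, by omega, by omega⟩
    rw [mem_sq]
    push_cast
    exact ⟨⟨hx.le, by linarith⟩, hy.le, by linarith⟩

theorem isTiling_T0 : IsTiling T0 := by
  refine ⟨?_, ?_, ?_⟩
  · rintro _ ⟨a, b, l, _, rfl⟩
    exact isCompact_sq
  · rw [eq_univ_iff_forall]
    intro z
    have hz : z ∈ sq (5 * ⌊z.re / 5⌋) (5 * ⌊z.im / 5⌋) 5 := by
      rw [mem_sq]
      push_cast
      have h1 := Int.floor_le (z.re / 5)
      have h2 := Int.lt_floor_add_one (z.re / 5)
      have h3 := Int.floor_le (z.im / 5)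
      have h4 := Int.lt_floor_add_one (z.im / 5)
      refine ⟨⟨by linarith, by linarith⟩, by linarith, by linarith⟩
    obtain ⟨a, b, l, h, hz', _⟩ := block _ _ hz
    exact ⟨_, ⟨a, b, l, h, rfl⟩, hz'⟩
  · rintro _ ⟨a, b, l, h, rfl⟩ _ ⟨a', b', l', h', rfl⟩ hne z ⟨hz, hz'⟩
    rw [isClosed_sq.frontier_eq, isClosed_sq.frontier_eq]
    refine ⟨⟨hz, fun hi => hne ?_⟩, ⟨hz', fun hi => hne ?_⟩⟩
    · obtain ⟨rfl, rfl, rfl⟩ := interior_disjoint h h' hi hz'
      rfl
    · obtain ⟨rfl, rfl, rfl⟩ := interior_disjoint h' h hi hz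
      rfl

/-! ### Similitudes -/

/-- The map `z ↦ r z + w`. -/
noncomputable def aff (r : ℝ) (hr : r ≠ 0) (w : ℂ) : ℂ ≃ ℂ where
  toFun z := (r : ℂ) * z + w
  invFun z := (z - w) / r
  left_inv z := by
    have : (r : ℂ) ≠ 0 := by exact_mod_cast hr
    field_simp
    ring
  right_inv z := by
    have : (r : ℂ) ≠ 0 := by exact_mod_cast hr
    field_simp
    ring

lemma aff_apply (r : ℝ) (hr : r ≠ 0) (w z : ℂ) : aff r hr w z = (r : ℂ) * z + w := rfl

lemma isSimilitude_aff {r : ℝ} (hr : 0 < r) (w : ℂ) : IsSimilitude r (aff r hr.ne' w) := by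
  refine ⟨hr, fun x y => ?_⟩
  rw [aff_apply, aff_apply, dist_add_right, dist_eq, ← mul_sub, norm_mul, Complex.norm_real,
    Real.norm_of_nonneg hr.le, ← dist_eq]

/-- A map `z ↦ r z + w` sends squares to squares. -/
lemma aff_image_sq {a b l a' b' l' : ℤ} {r : ℝ} (hr : 0 < r) {w : ℂ}
    (h1 : r * a + w.re = a') (h2 : r * b + w.im = b') (h3 : r * l = l') :
    aff r hr.ne' w '' sq a b l = sq a' b' l' := by
  ext z
  constructor
  · rintro ⟨y, hy, rfl⟩
    rw [mem_sq] at hy ⊢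
    rw [aff_apply]
    simp only [add_re, mul_re, ofReal_re, ofReal_im, zero_mul, sub_zero, add_im, mul_im, add_zero]
    obtain ⟨⟨y1, y2⟩, y3, y4⟩ := hy
    have e1 := mul_le_mul_of_nonneg_left y1 hr.le
    have e2 := mul_le_mul_of_nonneg_left y2 hr.le
    have e3 := mul_le_mul_of_nonneg_left y3 hr.le
    have e4 := mul_le_mul_of_nonneg_left y4 hr.le
    rw [mul_add] at e2 e4
    refine ⟨⟨by linarith, by linarith⟩, by linarith, by linarith⟩
  · intro hz
    refine ⟨(aff r hr.ne' w).symm z, ?_, Equiv.apply_symm_apply _ _⟩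
    set y := (aff r hr.ne' w).symm z with hy
    have hzy : z = (r : ℂ) * y + w := by
      rw [← aff_apply r hr.ne' w y, hy, Equiv.apply_symm_apply]
    rw [mem_sq] at hz ⊢
    rw [hzy] at hz
    simp only [add_re, mul_re, ofReal_re, ofReal_im, zero_mul, sub_zero, add_im, mul_im,
      add_zero] at hz
    obtain ⟨⟨y1, y2⟩, y3, y4⟩ := hz
    refine ⟨⟨?_, ?_⟩, ?_, ?_⟩
    · exact le_of_mul_le_mul_left (by linarith) hr
    · exact le_of_mul_le_mul_left (by rw [mul_add]; linarith) hr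
    · exact le_of_mul_le_mul_left (by linarith) hr
    · exact le_of_mul_le_mul_left (by rw [mul_add]; linarith) hr

theorem selfSimilar_T0 : SelfSimilar T0 := by
  refine ⟨5, aff 5 (by norm_num) 0, by norm_num, isSimilitude_aff (by norm_num) 0, ?_⟩
  rintro _ ⟨a, b, l, h, rfl⟩
  have hl := h.pos
  refine ⟨{t | t ∈ T0 ∧ t ⊆ sq (5 * a) (5 * b) (5 * l)}, fun t ht => ht.1, ?_⟩
  rw [aff_image_sq (a' := 5 * a) (b' := 5 * b) (l' := 5 * l) (by norm_num) (by simp) (by simp)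
    (by simp)]
  apply Subset.antisymm
  · intro z hz
    rw [mem_sq] at hz
    push_cast at hz
    obtain ⟨⟨z1, z2⟩, z3, z4⟩ := hz
    obtain ⟨A, A1, A2, A3, A4⟩ := exists_unit (a := a) (m := l) hl (x := z.re / 5)
      (by linarith) (by linarith)
    obtain ⟨B, B1, B2, B3, B4⟩ := exists_unit (a := b) (m := l) hl (x := z.im / 5)
      (by linarith) (by linarith)
    have hz : z ∈ sq (5 * A) (5 * B) 5 := by
      rw [mem_sq]
      push_cast
      exact ⟨⟨by linarith, by linarith⟩, by linarith, by linarith⟩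
    obtain ⟨a', b', l', h', hz', c1, c2, c3, c4⟩ := block _ _ hz
    refine ⟨sq a' b' l', ⟨⟨a', b', l', h', rfl⟩, ?_⟩, hz'⟩
    intro y hy
    rw [mem_sq] at hy ⊢
    have d1 : ((5 * a : ℤ) : ℝ) ≤ a' := by exact_mod_cast (by omega : 5 * a ≤ a')
    have d2 : ((a' + l' : ℤ) : ℝ) ≤ ((5 * a + 5 * l : ℤ) : ℝ) := by
      exact_mod_cast (by omega : a' + l' ≤ 5 * a + 5 * l)
    have d3 : ((5 * b : ℤ) : ℝ) ≤ b' := by exact_mod_cast (by omega : 5 * b ≤ b')
    have d4 : ((b' + l' : ℤ) : ℝ) ≤ ((5 * b + 5 * l : ℤ) : ℝ) := by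
      exact_mod_cast (by omega : b' + l' ≤ 5 * b + 5 * l)
    push_cast at d1 d2 d3 d4 ⊢
    exact ⟨⟨by linarith [hy.1.1], by linarith [hy.1.2]⟩, by linarith [hy.2.1],
      by linarith [hy.2.2]⟩
  · exact sUnion_subset fun t ht => ht.2

theorem similar_T0 : ∀ t ∈ T0, ∀ t' ∈ T0, Similar t t' := by
  rintro _ ⟨a, b, l, h, rfl⟩ _ ⟨a', b', l', h', rfl⟩
  have hl : (0 : ℝ) < l := by exact_mod_cast (by have := h.pos; omega : 0 < l)
  have hl' : (0 : ℝ) < l' := by exact_mod_cast (by have := h'.pos; omega : 0 < l')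
  have hr : (0 : ℝ) < l' / l := by positivity
  refine ⟨l' / l, aff (l' / l) hr.ne' ⟨a' - l' / l * a, b' - l' / l * b⟩,
    isSimilitude_aff hr _, aff_image_sq hr ?_ ?_ ?_⟩
  · simp
  · simp
  · field_simp

theorem finiteOrder_T0 : FiniteOrder T0 := by
  refine ⟨(fun l : ℤ => sq 0 0 l) '' (Finset.Icc 1 3 : Finset ℤ),
    (Finset.finite_toSet _).image _, ?_⟩
  rintro _ ⟨a, b, l, h, rfl⟩
  refine ⟨sq 0 0 l, ⟨l, ?_, rfl⟩, aff 1 (by norm_num) ⟨-a, -b⟩, isSimilitude_aff one_pos _,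
    aff_image_sq one_pos ?_ ?_ ?_⟩
  · rw [Finset.mem_coe, Finset.mem_Icc]
    unfold Rel at h
    omega
  · simp
  · simp
  · simp

/-! ### Patches -/

lemma aff_one_comp (w z : ℂ) : aff 1 (by norm_num) w z = z + w := by
  rw [aff_apply]; simp

/-- Translation by `(5m, 5n)` maps tiles to tiles. -/
lemma translate_T0 (m n : ℤ) {t : Set ℂ} (ht : t ∈ T0) :
    aff 1 (by norm_num) ⟨5 * m, 5 * n⟩ '' t ∈ T0 := by
  obtain ⟨a, b, l, h, rfl⟩ := ht
  refine ⟨a + 5 * m, b + 5 * n, l, ?_, ?_⟩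
  · unfold Rel at h ⊢
    omega
  · apply aff_image_sq one_pos
    · push_cast; ring
    · push_cast; ring
    · ring

theorem quasiperiodic_T0 : Quasiperiodic T0 := by
  rintro U ⟨hU, ⟨φ⟩⟩
  -- the union of the patch is bounded
  have hcomp : IsCompact (⋃₀ U : Set ℂ) := by
    have : CompactSpace (Metric.closedBall (0 : ℂ) 1) :=
      isCompact_iff_compactSpace.1 (isCompact_closedBall 0 1)
    have : CompactSpace (⋃₀ U : Set ℂ) := φ.symm.compactSpace
    exact isCompact_iff_compactSpace.2 inferInstance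
  obtain ⟨ρ, hρ⟩ := hcomp.isBounded.subset_closedBall (0 : ℂ)
  refine ⟨|ρ| + 10, by positivity, fun c => ?_⟩
  set m : ℤ := ⌊c.re / 5⌋ with hm
  set n : ℤ := ⌊c.im / 5⌋ with hn
  let τ : ℂ := ⟨5 * m, 5 * n⟩
  have himg : ⋃₀ ((fun t => aff 1 (by norm_num) τ '' t) '' U) =
      aff 1 (by norm_num) τ '' ⋃₀ U := by
    rw [sUnion_image, image_sUnion]
    simp only [sUnion_image]
  have hdist : dist τ c ≤ 10 := by
    rw [dist_eq]
    refine le_trans (Complex.norm_le_abs_re_add_abs_im _) ?_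
    have h1 := Int.floor_le (c.re / 5)
    have h2 := Int.lt_floor_add_one (c.re / 5)
    have h3 := Int.floor_le (c.im / 5)
    have h4 := Int.lt_floor_add_one (c.im / 5)
    have h5 : |(τ - c).re| ≤ 5 := by
      rw [abs_le]
      simp only [τ, sub_re]
      rw [← hm] at h1 h2
      constructor <;> linarith
    have h6 : |(τ - c).im| ≤ 5 := by
      rw [abs_le]
      simp only [τ, sub_im]
      rw [← hn] at h3 h4
      constructor <;> linarith
    linarith
  refine ⟨(fun t => aff 1 (by norm_num) τ '' t) '' U, ⟨?_, ?_⟩, ?_,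
    aff 1 (by norm_num) τ, isSimilitude_aff one_pos τ, rfl⟩
  · rintro _ ⟨t, ht, rfl⟩
    exact translate_T0 m n (hU ht)
  · rw [himg]
    have h1 : (aff 1 (by norm_num) τ : ℂ → ℂ) = Homeomorph.addRight τ := by
      funext z
      rw [aff_one_comp]
      rfl
    rw [h1]
    exact ⟨((Homeomorph.addRight τ).image (⋃₀ U)).symm.trans φ⟩
  · rw [himg]
    rintro _ ⟨z, hz, rfl⟩
    have hz' := hρ hz
    rw [Metric.mem_closedBall] at hz' ⊢
    rw [aff_one_comp]
    calc dist (z + τ) c ≤ dist (z + τ) τ + dist τ c := dist_triangle _ _ _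
      _ = dist z 0 + dist τ c := by
          congr 1
          rw [dist_eq, dist_eq]
          congr 1
          ring
      _ ≤ |ρ| + 10 := add_le_add (hz'.trans (le_abs_self ρ)) hdist

/-! ### Squares are polygons -/

lemma segment_horizontal {x0 x1 y : ℝ} (h : x0 < x1) {z : ℂ} :
    z ∈ segment ℝ (⟨x0, y⟩ : ℂ) ⟨x1, y⟩ ↔ z.im = y ∧ x0 ≤ z.re ∧ z.re ≤ x1 := by
  constructor
  · rintro ⟨a, b, ha, hb, hab, rfl⟩
    simp only [add_re, real_smul, mul_re, ofReal_re, ofReal_im, zero_mul, sub_zero, add_im, mul_im,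
      add_zero]
    have h5 : 0 ≤ a * (x1 - x0) := mul_nonneg ha (sub_pos.2 h).le
    have h6 : 0 ≤ b * (x1 - x0) := mul_nonneg hb (sub_pos.2 h).le
    refine ⟨by rw [← add_mul, hab, one_mul], ?_, ?_⟩
    · have h7 : a = 1 - b := by linarith
      rw [h7]
      linarith
    · have h7 : b = 1 - a := by linarith
      rw [h7]
      linarith
  · rintro ⟨h1, h2, h3⟩
    have h4 : 0 < x1 - x0 := by linarith
    refine ⟨(x1 - z.re) / (x1 - x0), (z.re - x0) / (x1 - x0), ?_, ?_, ?_, ?_⟩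
    · exact div_nonneg (by linarith) h4.le
    · exact div_nonneg (by linarith) h4.le
    · field_simp; ring
    · apply Complex.ext
      · simp only [add_re, real_smul, mul_re, ofReal_re, ofReal_im, zero_mul, sub_zero]
        field_simp
        ring
      · simp only [real_smul, ofReal_re, ofReal_im, zero_mul, add_im, mul_im, add_zero]
        rw [h1]
        field_simp
        ring

lemma segment_vertical {x y0 y1 : ℝ} (h : y0 < y1) {z : ℂ} :
    z ∈ segment ℝ (⟨x, y0⟩ : ℂ) ⟨x, y1⟩ ↔ z.re = x ∧ y0 ≤ z.im ∧ z.im ≤ y1 := by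
  constructor
  · rintro ⟨a, b, ha, hb, hab, rfl⟩
    simp only [add_re, real_smul, mul_re, ofReal_re, ofReal_im, zero_mul, sub_zero, add_im, mul_im,
      add_zero]
    have h5 : 0 ≤ a * (y1 - y0) := mul_nonneg ha (sub_pos.2 h).le
    have h6 : 0 ≤ b * (y1 - y0) := mul_nonneg hb (sub_pos.2 h).le
    refine ⟨by rw [← add_mul, hab, one_mul], ?_, ?_⟩
    · have h7 : a = 1 - b := by linarith
      rw [h7]
      linarith
    · have h7 : b = 1 - a := by linarith
      rw [h7]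
      linarith
  · rintro ⟨h1, h2, h3⟩
    have h4 : 0 < y1 - y0 := by linarith
    refine ⟨(y1 - z.im) / (y1 - y0), (z.im - y0) / (y1 - y0), ?_, ?_, ?_, ?_⟩
    · exact div_nonneg (by linarith) h4.le
    · exact div_nonneg (by linarith) h4.le
    · field_simp; ring
    · apply Complex.ext
      · simp only [add_re, real_smul, mul_re, ofReal_re, ofReal_im, zero_mul, sub_zero]
        rw [h1]
        field_simp
        ring
      · simp only [real_smul, ofReal_re, ofReal_im, zero_mul, add_im, mul_im, add_zero]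
        field_simp
        ring

/-- The vertices of a square. -/
def vert (a b l : ℤ) : ZMod 4 → ℂ :=
  ![⟨a, b⟩, ⟨a + l, b⟩, ⟨a + l, b + l⟩, ⟨a, b + l⟩]

theorem isPolygon_sq {a b l : ℤ} (hl : 1 ≤ l) : IsPolygon (sq a b l) := by
  have hl' : (1 : ℝ) ≤ l := by exact_mod_cast hl
  have s0 : ∀ z, z ∈ segment ℝ (vert a b l 0) (vert a b l (0 + 1)) ↔
      z.im = b ∧ (a : ℝ) ≤ z.re ∧ z.re ≤ a + l := fun z =>
    segment_horizontal (by linarith)
  have s1 : ∀ z, z ∈ segment ℝ (vert a b l 1) (vert a b l (1 + 1)) ↔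
      z.re = a + l ∧ (b : ℝ) ≤ z.im ∧ z.im ≤ b + l := fun z =>
    segment_vertical (by linarith)
  have s2 : ∀ z, z ∈ segment ℝ (vert a b l 2) (vert a b l (2 + 1)) ↔
      z.im = b + l ∧ (a : ℝ) ≤ z.re ∧ z.re ≤ a + l := fun z => by
    rw [segment_symm]
    exact segment_horizontal (by linarith)
  have s3 : ∀ z, z ∈ segment ℝ (vert a b l 3) (vert a b l (3 + 1)) ↔
      z.re = a ∧ (b : ℝ) ≤ z.im ∧ z.im ≤ b + l := fun z => by
    rw [segment_symm]
    exact segment_vertical (by linarith)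
  have v0 : vert a b l 0 = ⟨a, b⟩ := rfl
  have v1 : vert a b l 1 = ⟨a + l, b⟩ := rfl
  have v2 : vert a b l 2 = ⟨a + l, b + l⟩ := rfl
  have v3 : vert a b l 3 = ⟨a, b + l⟩ := rfl
  have a0 : (0 + 1 : ZMod 4) = 1 := rfl
  have a1 : (1 + 1 : ZMod 4) = 2 := rfl
  have a2 : (2 + 1 : ZMod 4) = 3 := rfl
  have a3 : (3 + 1 : ZMod 4) = 0 := rfl
  have four : ∀ i : ZMod 4, i = 0 ∨ i = 1 ∨ i = 2 ∨ i = 3 := by decide
  refine ⟨4, vert a b l, by norm_num, ?_, ?_, isCompact_sq, ?_, closure_interior_sq hl, ?_⟩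
  · intro i j hij
    rcases four i with rfl | rfl | rfl | rfl <;> rcases four j with rfl | rfl | rfl | rfl <;>
      first
      | rfl
      | (exfalso
         simp only [v0, v1, v2, v3, Complex.mk.injEq] at hij
         obtain ⟨h1, h2⟩ := hij
         linarith)
  · intro i j hij z hz
    rcases four i with rfl | rfl | rfl | rfl <;> rcases four j with rfl | rfl | rfl | rfl <;>
      first
      | exact absurd rfl hij
      | (simp only [mem_inter_iff, s0, s1, s2, s3] at hz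
         obtain ⟨⟨h1, h2, h3⟩, h4, h5, h6⟩ := hz
         simp only [a0, a1, a2, a3, v0, v1, v2, v3, mem_inter_iff, mem_insert_iff,
           mem_singleton_iff, Complex.ext_iff]
         first
         | (exfalso; linarith)
         | (refine ⟨Or.inl ⟨by linarith, by linarith⟩, Or.inl ⟨by linarith, by linarith⟩⟩)
         | (refine ⟨Or.inl ⟨by linarith, by linarith⟩, Or.inr ⟨by linarith, by linarith⟩⟩)
         | (refine ⟨Or.inr ⟨by linarith, by linarith⟩, Or.inl ⟨by linarith, by linarith⟩⟩))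
  · refine ⟨⟨a + l / 2, b + l / 2⟩, ?_⟩
    rw [mem_interior_sq]
    simp only
    refine ⟨⟨by linarith, by linarith⟩, by linarith, by linarith⟩
  · ext z
    rw [isClosed_sq.frontier_eq, mem_sdiff, mem_interior_sq, mem_sq, mem_iUnion]
    constructor
    · rintro ⟨⟨⟨h1, h2⟩, h3, h4⟩, h5⟩
      by_cases c1 : z.re = a
      · exact ⟨3, (s3 z).2 ⟨c1, h3, h4⟩⟩
      by_cases c2 : z.re = a + l
      · exact ⟨1, (s1 z).2 ⟨c2, h3, h4⟩⟩
      by_cases c3 : z.im = b
      · exact ⟨0, (s0 z).2 ⟨c3, h1, h2⟩⟩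
      by_cases c4 : z.im = b + l
      · exact ⟨2, (s2 z).2 ⟨c4, h1, h2⟩⟩
      exfalso
      exact h5 ⟨⟨lt_of_le_of_ne h1 (Ne.symm c1), lt_of_le_of_ne h2 c2⟩,
        lt_of_le_of_ne h3 (Ne.symm c3), lt_of_le_of_ne h4 c4⟩
    · rintro ⟨i, hi⟩
      rcases four i with rfl | rfl | rfl | rfl
      · obtain ⟨h1, h2, h3⟩ := (s0 z).1 hi
        exact ⟨⟨⟨h2, h3⟩, by linarith, by linarith⟩, fun h => by linarith [h.2.1]⟩
      · obtain ⟨h1, h2, h3⟩ := (s1 z).1 hi
        exact ⟨⟨⟨by linarith, by linarith⟩, h2, h3⟩, fun h => by linarith [h.1.2]⟩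
      · obtain ⟨h1, h2, h3⟩ := (s2 z).1 hi
        exact ⟨⟨⟨h2, h3⟩, by linarith, by linarith⟩, fun h => by linarith [h.2.2]⟩
      · obtain ⟨h1, h2, h3⟩ := (s3 z).1 hi
        exact ⟨⟨⟨by linarith, by linarith⟩, h2, h3⟩, fun h => by linarith [h.1.1]⟩

theorem isSelfSimilarPolygonalTiling_T0 : IsSelfSimilarPolygonalTiling T0 where
  tiling := isTiling_T0
  finiteOrder := finiteOrder_T0
  quasiperiodic := quasiperiodic_T0
  selfSimilar := selfSimilar_T0
  polygons := by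
    rintro _ ⟨a, b, l, h, rfl⟩
    exact isPolygon_sq h.pos
  similar := similar_T0

/-! ## The tiles of `T(p, F, θ)` have sizes `c * s ^ n` -/

lemma IsSimilitude.trans' {r r' : ℝ} {f f' : ℂ ≃ ℂ} (h : IsSimilitude r f)
    (h' : IsSimilitude r' f') : IsSimilitude (r' * r) (f.trans f') := by
  refine ⟨mul_pos h'.1 h.1, fun x y => ?_⟩
  rw [Equiv.trans_apply, Equiv.trans_apply, h'.2, h.2, mul_assoc]

lemma IsSimilitude.symm' {r : ℝ} {f : ℂ ≃ ℂ} (h : IsSimilitude r f) :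
    IsSimilitude r⁻¹ f.symm := by
  refine ⟨inv_pos.2 h.1, fun x y => ?_⟩
  have h1 := h.2 (f.symm x) (f.symm y)
  rw [Equiv.apply_symm_apply, Equiv.apply_symm_apply] at h1
  rw [h1, ← mul_assoc, inv_mul_cancel₀ h.1.ne', one_mul]

lemma isSimilitude_comp {N : ℕ} {F : Fin N → ℂ ≃ ℂ} {s : ℝ} {a : Fin N → ℕ}
    (hF : ∀ n, IsSimilitude (s ^ a n) (F n)) (σ : List (Fin N)) :
    IsSimilitude (s ^ e a σ) (comp F σ) := by
  induction σ with
  | nil => exact ⟨by simp [e], fun x y => by simp [e, comp]⟩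
  | cons i σ ih =>
    have h1 : e a (i :: σ) = a i + e a σ := by simp [e]
    rw [h1, pow_add]
    exact ih.trans' (hF i)

lemma isSimilitude_compInv {N : ℕ} {F : Fin N → ℂ ≃ ℂ} {s : ℝ} {a : Fin N → ℕ}
    (hF : ∀ n, IsSimilitude (s ^ a n) (F n)) (σ : List (Fin N)) :
    IsSimilitude (s ^ e a σ)⁻¹ (compInv F σ) := by
  induction σ with
  | nil => exact ⟨by simp [e], fun x y => by simp [e, compInv]⟩
  | cons i σ ih =>
    have h1 : e a (i :: σ) = a i + e a σ := by simp [e]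
    rw [h1, pow_add, mul_inv]
    exact ih.trans' (hF i).symm'

lemma diam_image {r : ℝ} {f : ℂ ≃ ℂ} (h : IsSimilitude r f) (p : Set ℂ) :
    Metric.diam (f '' p) = r * Metric.diam p := by
  have hr := h.1
  have hedist : ∀ x y, edist (f x) (f y) = ENNReal.ofReal r * edist x y := by
    intro x y
    rw [edist_dist, edist_dist, h.2, ENNReal.ofReal_mul hr.le]
  have h1 : Metric.ediam (f '' p) = ENNReal.ofReal r * Metric.ediam p := by
    simp only [Metric.ediam, iSup_image, hedist, ENNReal.mul_iSup]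
  unfold Metric.diam
  rw [h1, ENNReal.toReal_mul, ENNReal.toReal_ofReal hr.le]

lemma diam_sq {a b l : ℤ} (hl : 1 ≤ l) :
    Metric.diam (sq a b l) = l * Metric.diam (sq 0 0 1) := by
  have hl' : (0 : ℝ) < l := by exact_mod_cast (by omega : 0 < l)
  rw [← diam_image (isSimilitude_aff hl' ⟨a, b⟩) (sq 0 0 1)]
  congr 1
  symm
  apply aff_image_sq hl'
  · simp
  · simp
  · simp

lemma diam_unit_pos : 0 < Metric.diam (sq 0 0 1) := by
  have h1 : (0 : ℂ) ∈ sq 0 0 1 := by rw [mem_sq]; simp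
  have h2 : (1 : ℂ) ∈ sq 0 0 1 := by rw [mem_sq]; simp
  have h3 := Metric.dist_le_diam_of_mem isCompact_sq.isBounded h1 h2
  have h4 : dist (0 : ℂ) 1 = 1 := by simp
  linarith

lemma no_power {s : ℝ} {m n : ℤ} (hm : s ^ m = 2) (hn : s ^ n = 3) : False := by
  have h1 : (2 : ℝ) ^ n = 3 ^ m := by
    rw [← hm, ← hn, ← zpow_mul, ← zpow_mul, mul_comm]
  have nat : ∀ n m : ℕ, 0 < n → (2 : ℝ) ^ n ≠ 3 ^ m := by
    intro n m hn h
    have h2 : (2 : ℕ) ^ n = 3 ^ m := by exact_mod_cast h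
    have h3 : Even ((2 : ℕ) ^ n) := Nat.even_pow.2 ⟨even_two, by omega⟩
    have h4 : Odd ((3 : ℕ) ^ m) := Odd.pow (by decide)
    rw [h2] at h3
    exact (Nat.not_even_iff_odd.2 h4) h3
  rcases lt_trichotomy n 0 with hneg | h0 | hpos
  · have h2 : (3 : ℝ) ^ m < 1 := by
      rw [← h1]
      exact zpow_lt_one_of_neg₀ (by norm_num) hneg
    have hm' : m < 0 := by
      by_contra hc
      push Not at hc
      have := one_le_zpow₀ (a := (3 : ℝ)) (by norm_num) hc
      linarith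
    obtain ⟨n', hn'⟩ := Int.eq_ofNat_of_zero_le (a := -n) (by omega)
    obtain ⟨m', hm''⟩ := Int.eq_ofNat_of_zero_le (a := -m) (by omega)
    have h3 : (2 : ℝ) ^ (-n) = 3 ^ (-m) := by rw [zpow_neg, zpow_neg, h1]
    rw [hn', hm'', zpow_natCast, zpow_natCast] at h3
    exact nat n' m' (by omega) h3
  · rw [h0, zpow_zero] at hn
    norm_num at hn
  · have h2 : (1 : ℝ) < 3 ^ m := by
      rw [← h1]
      exact one_lt_zpow₀ (by norm_num) hpos
    have hm' : 0 < m := by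
      by_contra hc
      push Not at hc
      have := zpow_le_one_of_nonpos₀ (a := (3 : ℝ)) (by norm_num) hc
      linarith
    obtain ⟨n', hn'⟩ := Int.eq_ofNat_of_zero_le hpos.le
    obtain ⟨m', hm''⟩ := Int.eq_ofNat_of_zero_le hm'.le
    rw [hn', hm'', zpow_natCast, zpow_natCast] at h1
    exact nat n' m' (by omega) h1

/-- If squares of side 1, 2 and 3 are in `T(p, F, θ)` we get a contradiction. -/
theorem not_gen {p : Set ℂ} {N : ℕ} {F : Fin N → ℂ ≃ ℂ} {s : ℝ} {a : Fin N → ℕ} (hs : 0 < s)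
    (hF : ∀ n, IsSimilitude (s ^ a n) (F n)) (θ : ℕ → Fin N) : T0 ≠ genTiling p F a θ := by
  intro hT
  have key : ∀ x y l : ℤ, Rel x y l → ∃ n : ℤ,
      (l : ℝ) * Metric.diam (sq 0 0 1) = s ^ n * Metric.diam p := by
    intro x y l h
    have h1 : sq x y l ∈ genTiling p F a θ := by
      rw [← hT]
      exact ⟨x, y, l, h, rfl⟩
    obtain ⟨k, _, σ, _, _, h2⟩ := h1
    refine ⟨(e a σ : ℤ) - e a (pre θ k), ?_⟩
    rw [← diam_sq (a := x) (b := y) h.pos, h2, diam_image (isSimilitude_compInv hF _),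
      diam_image (isSimilitude_comp hF _), zpow_sub₀ hs.ne', zpow_natCast, zpow_natCast]
    field_simp
  obtain ⟨n1, h1⟩ := key 0 3 1 (by unfold Rel; omega)
  obtain ⟨n2, h2⟩ := key 3 3 2 (by unfold Rel; omega)
  obtain ⟨n3, h3⟩ := key 0 0 3 (by unfold Rel; omega)
  have hδ := diam_unit_pos
  push_cast at h1 h2 h3
  have hp : 0 < s ^ n1 := zpow_pos hs _
  have hd : Metric.diam p = Metric.diam (sq 0 0 1) / s ^ n1 := by
    rw [eq_div_iff hp.ne']
    linarith
  rw [hd] at h2 h3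
  apply no_power (m := n2 - n1) (n := n3 - n1)
  · rw [zpow_sub₀ hs.ne']
    field_simp at h2 ⊢
    nlinarith
  · rw [zpow_sub₀ hs.ne']
    field_simp at h3 ⊢
    nlinarith

/-- **Result.**  There is a self-similar polygonal tiling of the plane that is not obtained by the
generating-pair method.  It is not even of the form `T(p, F, θ)` for any set `p` and any
similitudes `F` whose ratios are natural powers of one positive number. -/
theorem result : ∃ T : Set (Set ℂ), IsSelfSimilarPolygonalTiling T ∧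
    (∀ (p : Set ℂ) (N : ℕ) (F : Fin N → ℂ ≃ ℂ) (s : ℝ) (a : Fin N → ℕ),
      IsGeneratingPair p F s a → ∀ θ : ℕ → Fin N, T ≠ genTiling p F a θ) ∧
    (∀ (p : Set ℂ) (N : ℕ) (F : Fin N → ℂ ≃ ℂ) (s : ℝ) (a : Fin N → ℕ), 0 < s →
      (∀ n, IsSimilitude (s ^ a n) (F n)) → ∀ θ : ℕ → Fin N, T ≠ genTiling p F a θ) :=
  ⟨T0, isSelfSimilarPolygonalTiling_T0,
    fun _ _ _ _ _ h θ => not_gen h.s_pos h.similitude θ,
    fun _ _ _ _ _ hs hF θ => not_gen hs hF θ⟩

end Pool.Agent.Results.MP_4b3b27_co.SquaresOneTwoThree
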